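import Mathlib
import Pool.Agent.H29.Zass

/-! A strongly indecomposable torsion-free abelian group of rank at most 6 whose endomorphism ring
is centrally essential and not commutative. -/

namespace Pool.Agent.Results.MP_7bf690_al.Rank6

/-- Centrally essential rings. -/
def CentrallyEssential (R : Type) [Ring R] : Prop :=
  ∀ a : R, a ≠ 0 → ∃ c ∈ Subring.center R, ∃ d ∈ Subring.center R, c ≠ 0 ∧ d ≠ 0 ∧ a * c = d

/-- Strongly indecomposable groups. -/
def StronglyIndecomposable (A : Type) [AddCommGroup A] : Prop :=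
  Nontrivial A ∧ ∀ (B C : AddSubgroup A) (n : ℕ), 0 < n → B ⊓ C = ⊥ →
    (∀ a : A, n • a ∈ B ⊔ C) → B = ⊥ ∨ C = ⊥

/-- The six-dimensional algebra with basis `1, t, a, b, u, v`. -/
def L : Type := Fin 6 → ℚ

instance : AddCommGroup L := Pi.addCommGroup
instance : Module ℚ L := Pi.module _ _ _
instance : One L := ⟨![1, 0, 0, 0, 0, 0]⟩
instance : Mul L := ⟨fun x y => ![x 0 * y 0, x 0 * y 1 + x 1 * y 0, x 0 * y 2 + x 2 * y 0,
  x 0 * y 3 + x 3 * y 0, x 0 * y 4 + x 4 * y 0 + x 1 * y 2 + x 2 * y 1 + x 2 * y 3,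
  x 0 * y 5 + x 5 * y 0 + x 1 * y 3 + x 3 * y 1]⟩

theorem mul_def (x y : L) : x * y = ![x 0 * y 0, x 0 * y 1 + x 1 * y 0, x 0 * y 2 + x 2 * y 0,
  x 0 * y 3 + x 3 * y 0, x 0 * y 4 + x 4 * y 0 + x 1 * y 2 + x 2 * y 1 + x 2 * y 3,
  x 0 * y 5 + x 5 * y 0 + x 1 * y 3 + x 3 * y 1] := rfl
theorem one_def : (1 : L) = ![1, 0, 0, 0, 0, 0] := rfl
theorem add_ap (x y : L) (i : Fin 6) : (x + y) i = x i + y i := rfl
theorem zero_ap (i : Fin 6) : (0 : L) i = 0 := rfl
theorem neg_ap (x : L) (i : Fin 6) : (-x) i = -x i := rfl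
theorem smul_ap (c : ℚ) (x : L) (i : Fin 6) : (c • x) i = c * x i := rfl

theorem ext6 {x y : L} (h0 : x 0 = y 0) (h1 : x 1 = y 1) (h2 : x 2 = y 2) (h3 : x 3 = y 3)
    (h4 : x 4 = y 4) (h5 : x 5 = y 5) : x = y := by
  funext i
  fin_cases i <;> assumption

theorem m0 (x y : L) : (x * y) 0 = x 0 * y 0 := rfl
theorem m1 (x y : L) : (x * y) 1 = x 0 * y 1 + x 1 * y 0 := rfl
theorem m2 (x y : L) : (x * y) 2 = x 0 * y 2 + x 2 * y 0 := rfl
theorem m3 (x y : L) : (x * y) 3 = x 0 * y 3 + x 3 * y 0 := rfl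
theorem m4 (x y : L) : (x * y) 4 = x 0 * y 4 + x 4 * y 0 + x 1 * y 2 + x 2 * y 1 + x 2 * y 3 := rfl
theorem m5 (x y : L) : (x * y) 5 = x 0 * y 5 + x 5 * y 0 + x 1 * y 3 + x 3 * y 1 := rfl
theorem o0 : (1 : L) 0 = 1 := rfl
theorem o1 : (1 : L) 1 = 0 := rfl
theorem o2 : (1 : L) 2 = 0 := rfl
theorem o3 : (1 : L) 3 = 0 := rfl
theorem o4 : (1 : L) 4 = 0 := rfl
theorem o5 : (1 : L) 5 = 0 := rfl

instance : Ring L :=
  { (inferInstance : AddCommGroup L), (inferInstance : One L), (inferInstance : Mul L) with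
    left_distrib := fun x y z => by
      apply ext6 <;> simp only [m0, m1, m2, m3, m4, m5, add_ap] <;> ring
    right_distrib := fun x y z => by
      apply ext6 <;> simp only [m0, m1, m2, m3, m4, m5, add_ap] <;> ring
    zero_mul := fun x => by apply ext6 <;> simp only [m0, m1, m2, m3, m4, m5, zero_ap] <;> ring
    mul_zero := fun x => by apply ext6 <;> simp only [m0, m1, m2, m3, m4, m5, zero_ap] <;> ring
    mul_assoc := fun x y z => by apply ext6 <;> simp only [m0, m1, m2, m3, m4, m5] <;> ring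
    one_mul := fun x => by
      apply ext6 <;> simp only [m0, m1, m2, m3, m4, m5, o0, o1, o2, o3, o4, o5] <;> ring
    mul_one := fun x => by
      apply ext6 <;> simp only [m0, m1, m2, m3, m4, m5, o0, o1, o2, o3, o4, o5] <;> ring }

noncomputable instance : Algebra ℚ L := Algebra.ofModule
  (fun c x y => by apply ext6 <;> simp only [m0, m1, m2, m3, m4, m5, smul_ap] <;> ring)
  (fun c x y => by apply ext6 <;> simp only [m0, m1, m2, m3, m4, m5, smul_ap] <;> ring)

/-- The integral points. -/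
def R : Subring L where
  carrier := {x | ∀ i, x i ∈ (⊥ : Subring ℚ)}
  one_mem' := fun i => by
    fin_cases i
    exacts [Subring.one_mem _, Subring.zero_mem _, Subring.zero_mem _, Subring.zero_mem _,
      Subring.zero_mem _, Subring.zero_mem _]
  zero_mem' := fun _ => Subring.zero_mem _
  add_mem' := fun hx hy i => Subring.add_mem _ (hx i) (hy i)
  neg_mem' := fun hx i => Subring.neg_mem _ (hx i)
  mul_mem' := fun {x y} hx hy i => by
    have h : ∀ i j, x i * y j ∈ (⊥ : Subring ℚ) := fun i j => Subring.mul_mem _ (hx i) (hy j)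
    fin_cases i
    · exact h 0 0
    · exact add_mem (h 0 1) (h 1 0)
    · exact add_mem (h 0 2) (h 2 0)
    · exact add_mem (h 0 3) (h 3 0)
    · exact add_mem (add_mem (add_mem (add_mem (h 0 4) (h 4 0)) (h 1 2)) (h 2 1)) (h 2 3)
    · exact add_mem (add_mem (add_mem (h 0 5) (h 5 0)) (h 1 3)) (h 3 1)

/-- Basis vectors. -/
def e (i : Fin 6) : L := Pi.single i 1

theorem e_ap (i j : Fin 6) : e i j = if j = i then 1 else 0 := Pi.single_apply i 1 j

theorem e_mem (i : Fin 6) : e i ∈ R := fun j => by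
  rw [e_ap]; split_ifs; exacts [Subring.one_mem _, Subring.zero_mem _]

theorem e_sq (i : Fin 6) (hi : i ≠ 0) : e i * e i = 0 := by
  apply ext6 <;> simp only [m0, m1, m2, m3, m4, m5, zero_ap, e_ap] <;> fin_cases i <;> simp_all

theorem hspan : Submodule.span ℚ {x | x ∈ R ∧ (IsNilpotent x ∨ IsIdempotentElem x)} = ⊤ := by
  rw [eq_top_iff]
  intro x _
  have he : ∀ i, e i ∈ Submodule.span ℚ {x | x ∈ R ∧ (IsNilpotent x ∨ IsIdempotentElem x)} := by
    intro i
    refine Submodule.subset_span ⟨e_mem i, ?_⟩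
    by_cases hi : i = 0
    · subst hi
      right
      apply ext6 <;> simp [m0, m1, m2, m3, m4, m5, e_ap]
    · exact Or.inl ⟨2, by rw [pow_two, e_sq i hi]⟩
  have hx : x = x 0 • e 0 + x 1 • e 1 + x 2 • e 2 + x 3 • e 3 + x 4 • e 4 + x 5 • e 5 := by
    apply ext6 <;> simp [add_ap, smul_ap, e_ap]
  rw [hx]
  repeat' apply add_mem
  all_goals exact Submodule.smul_mem _ _ (he _)

theorem hdiv : ∀ x ∈ R, x ≠ 0 → ∃ N : ℕ, ∀ p : ℕ, N < p → ∀ y ∈ R, x ≠ p • y := by
  intro x hx hne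
  obtain ⟨i, hi⟩ : ∃ i, x i ≠ 0 := by
    by_contra h
    push Not at h
    exact hne (funext h)
  obtain ⟨k, hk⟩ := Subring.mem_bot.1 (hx i)
  refine ⟨k.natAbs, fun p hp y hy h => ?_⟩
  obtain ⟨l, hl⟩ := Subring.mem_bot.1 (hy i)
  have h1 : x i = p * y i := by rw [h, ← Nat.cast_smul_eq_nsmul ℚ, smul_ap]
  rw [← hk, ← hl] at h1
  have h2 : k = p * l := by exact_mod_cast h1
  have hk0 : k ≠ 0 := by rintro rfl; exact hi (by rw [← hk]; simp)
  have := Int.natAbs_le_of_dvd_ne_zero (⟨l, h2⟩ : (p : ℤ) ∣ k) hk0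
  simp at this
  omega

theorem ceL (a : L) (ha : a ≠ 0) :
    ∃ x ∈ Subring.center L, a * x ∈ Subring.center L ∧ a * x ≠ 0 := by
  have cen : ∀ x : L, x 2 = 0 → x 3 = 0 → x ∈ Subring.center L := fun x h2 h3 =>
    Subring.mem_center_iff.2 fun g => by
      apply ext6 <;> simp only [m0, m1, m2, m3, m4, m5, h2, h3] <;> ring
  by_cases h0 : a 0 = 0
  · by_cases h : a 2 = 0 ∧ a 3 = 0
    · exact ⟨1, Subring.one_mem _, by rw [mul_one]; exact cen a h.1 h.2, by rwa [mul_one]⟩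
    · refine ⟨e 1, cen _ (by simp [e_ap]) (by simp [e_ap]),
        cen _ (by simp [m2, e_ap]) (by simp [m3, e_ap]), fun h' => h ⟨?_, ?_⟩⟩
      · simpa [m4, e_ap, zero_ap] using congrFun h' 4
      · simpa [m5, e_ap, zero_ap] using congrFun h' 5
  · refine ⟨e 4, cen _ (by simp [e_ap]) (by simp [e_ap]),
      cen _ (by simp [m2, e_ap]) (by simp [m3, e_ap]), fun h' => h0 ?_⟩
    simpa [m4, e_ap, zero_ap] using congrFun h' 4

theorem cancel {x y : L} (h : x * y = 0) (hx : x 0 ≠ 0) : y = 0 := by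
  have h0 : y 0 = 0 := by simpa [m0, zero_ap, hx] using congrFun h 0
  have h1 : y 1 = 0 := by simpa [m1, zero_ap, hx, h0] using congrFun h 1
  have h2 : y 2 = 0 := by simpa [m2, zero_ap, hx, h0] using congrFun h 2
  have h3 : y 3 = 0 := by simpa [m3, zero_ap, hx, h0] using congrFun h 3
  have h4 : y 4 = 0 := by simpa [m4, zero_ap, hx, h0, h1, h2, h3] using congrFun h 4
  have h5 : y 5 = 0 := by simpa [m5, zero_ap, hx, h0, h1, h2, h3] using congrFun h 5
  exact ext6 h0 h1 h2 h3 h4 h5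

theorem rank_L : Module.rank ℤ L = 6 := by
  rw [← IsLocalization.rank_eq ℚ (nonZeroDivisors ℤ) le_rfl]
  exact (rank_fin_fun (R := ℚ) 6).trans (by norm_num)

theorem result : ∃ (A : Type) (_ : AddCommGroup A), IsAddTorsionFree A ∧
    Module.rank ℚ (TensorProduct ℤ ℚ A) ≤ 6 ∧ StronglyIndecomposable A ∧
    CentrallyEssential (AddMonoid.End A) ∧ ∃ φ χ : AddMonoid.End A, φ * χ ≠ χ * φ := by
  haveI : Countable L := inferInstanceAs (Countable (Fin 6 → ℚ))
  obtain ⟨A, ρ, hρ, hs, hap, hRA, hR⟩ :=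
    Pool.Agent.H29.Zass.realize R (Set.to_countable _) hspan hdiv
  haveI : IsAddTorsionFree L := inferInstanceAs (IsAddTorsionFree (Fin 6 → ℚ))
  refine ⟨A, inferInstance, inferInstance, ?_, ⟨?_, ?_⟩,
    Pool.Agent.H29.Zass.ce R ρ hρ hs hR ceL, ?_⟩
  · rw [(TensorProduct.isBaseChange ℤ A ℚ).rank_eq, ← rank_L]
    exact LinearMap.rank_le_of_injective A.subtype.toIntLinearMap Subtype.val_injective
  · refine ⟨⟨⟨1, hRA 1 R.one_mem⟩, 0, fun h => ?_⟩⟩
    have := congrFun (congrArg Subtype.val h) 0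
    exact one_ne_zero (α := ℚ) this
  · intro B C n hn hBC hsup
    have hd : ∀ b ∈ B, ∀ c ∈ C, b + c = 0 → b = 0 := by
      intro b hb c hc h
      have : b ∈ B ⊓ C := ⟨hb, by rw [eq_neg_of_add_eq_zero_left h]; exact C.neg_mem hc⟩
      rwa [hBC, AddSubgroup.mem_bot] at this
    choose f hf g hg hfg using fun a => AddSubgroup.mem_sup.1 (hsup a)
    have huniq : ∀ a, ∀ b ∈ B, ∀ c ∈ C, b + c = n • a → f a = b := by
      intro a b hb c hc h
      refine sub_eq_zero.1 (hd _ (B.sub_mem (hf a) hb) (g a - c) (C.sub_mem (hg a) hc) ?_)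
      rw [sub_add_sub_comm, hfg, h, sub_self]
    let π : AddMonoid.End A := AddMonoidHom.mk' f fun a a' =>
      huniq _ _ (B.add_mem (hf a) (hf a')) _ (C.add_mem (hg a) (hg a')) (by
        rw [add_add_add_comm, hfg, hfg, nsmul_add])
    by_cases h0 : ρ π 0 = 0
    · left
      rw [eq_bot_iff]
      intro b hb
      have h1 : π b = n • b := huniq b _ (nsmul_mem hb n) 0 C.zero_mem (add_zero _)
      have h2 : (ρ π + (-(n : ℚ)) • 1) * (b : L) = 0 := by
        rw [add_mul, ← hap, h1, smul_mul_assoc, one_mul, neg_smul, Nat.cast_smul_eq_nsmul]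
        simp
      have h3 := cancel h2 (by
        rw [add_ap, smul_ap, h0, o0]; simpa using hn.ne')
      exact AddSubgroup.mem_bot.2 (Subtype.ext h3)
    · right
      rw [eq_bot_iff]
      intro c hc
      have h1 : π c = 0 := huniq c _ B.zero_mem _ (nsmul_mem hc n) (zero_add _)
      have h2 : ρ π * (c : L) = 0 := by rw [← hap, h1]; rfl
      exact AddSubgroup.mem_bot.2 (Subtype.ext (cancel h2 h0))
  · obtain ⟨φ, hφ⟩ := hs _ (e_mem 2)
    obtain ⟨χ, hχ⟩ := hs _ (e_mem 3)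
    refine ⟨φ, χ, fun h => ?_⟩
    have := congrFun (congrArg ρ h) 4
    rw [map_mul, map_mul, hφ, hχ, m4, m4] at this
    simp [e_ap] at this

end Pool.Agent.Results.MP_7bf690_al.Rank6
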